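import Pool.Agent.MP_bd94e8_al.H89.Spec

/-!
Pieces of graded covers; elementary properties of covers.
-/

set_option autoImplicit false
set_option linter.unusedSectionVars false

namespace Pool.Agent.MP_bd94e8_al.H89

open Module Function

namespace PieceA

variable {k F : Type} [Field k] [Field F] [Algebra k F] {Pt ι Ω : Type} [Fintype Pt]
  [DecidableEq Pt] {T I O : Type} [Fintype T] [DecidableEq T]

open Classical in
theorem mul_mask (s : Pt → Prop) (h : Matrix Pt Pt F) (q p : Pt) :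
    (h * mask (fun _ p => s p) (1 : Matrix Pt Pt F)) q p = if s p then h q p else 0 := by
  rw [Matrix.mul_apply, Finset.sum_eq_single p (fun x _ hx => by
    simp [mask_apply, Matrix.one_apply_ne hx]) (by simp)]
  simp [mask_apply]

open Classical in
theorem mask_mul (s : Pt → Prop) (h : Matrix Pt Pt F) (q p : Pt) :
    (mask (fun _ p => s p) (1 : Matrix Pt Pt F) * h) q p = if s q then h q p else 0 := by
  rw [Matrix.mul_apply, Finset.sum_eq_single q (fun x _ hx => by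
    simp [mask_apply, Matrix.one_apply_ne hx.symm]) (by simp)]
  simp [mask_apply]

open Classical in
theorem mul_mask_mul (s : Pt → Prop) (h h' : Matrix Pt Pt F) (q p : Pt) :
    (h * mask (fun _ p => s p) (1 : Matrix Pt Pt F) * h') q p =
      ∑ r ∈ Finset.univ.filter s, h q r * h' r p := by
  rw [Matrix.mul_apply, Finset.sum_filter]
  refine Finset.sum_congr rfl fun r _ => ?_
  rw [mul_mask]; split_ifs <;> simp

/-- The problem on `T` whose blocks come from `P`. -/
noncomputable def mkJ (P : Prob k F Pt ι Ω) (vt : T → I) (pk : T → O) (π : T → Pt)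
    (h1 : ∀ t t', vt t = vt t' → P.vt (π t) = P.vt (π t'))
    (h2 : ∀ t t', vt t = vt t' → π t = π t' → t = t')
    (h3 : ∀ t p, P.vt p = P.vt (π t) → ∃ t', vt t' = vt t ∧ π t' = p) : Prob k F T I O where
  vt := vt
  pk := pk
  B :=
    { carrier := {b | (∀ t' t, b t' t ≠ 0 → pk t' = pk t) ∧
        ∀ i j, ∃ h ∈ P.B, ∀ t t', vt t = i → vt t' = j → b t' t = h (π t') (π t)}
      add_mem' := by
        rintro a b ⟨a1, a2⟩ ⟨b1, b2⟩
        refine ⟨fun t' t h => ?_, fun i j => ?_⟩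
        · by_cases e : a t' t = 0
          · exact b1 _ _ (by simpa [e] using h)
          · exact a1 _ _ e
        · obtain ⟨x, hx, ex⟩ := a2 i j
          obtain ⟨y, hy, ey⟩ := b2 i j
          exact ⟨x + y, P.B.add_mem hx hy, fun t t' e e' => by
            rw [Matrix.add_apply, Matrix.add_apply, ex t t' e e', ey t t' e e']⟩
      mul_mem' := by
        classical
        rintro a b ⟨a1, a2⟩ ⟨b1, b2⟩
        refine ⟨fun t' t h => ?_, fun i j => ?_⟩
        · obtain ⟨u, -, hu⟩ := Finset.exists_ne_zero_of_sum_ne_zero h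
          exact (a1 _ _ (left_ne_zero_of_mul hu)).trans (b1 _ _ (right_ne_zero_of_mul hu))
        · choose x hx ex using fun l => a2 l j
          choose y hy ey using fun l => b2 i l
          have key : ∀ l ∈ Finset.univ.image vt, ∃ z ∈ P.B, ∀ t t', vt t = i → vt t' = j →
              ∑ u ∈ Finset.univ.filter (fun u => vt u = l), a t' u * b u t = z (π t') (π t) := by
            intro l hl
            obtain ⟨u₀, -, rfl⟩ := Finset.mem_image.1 hl
            refine ⟨x (vt u₀) * P.e (P.vt (π u₀)) * y (vt u₀),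
              P.B.mul_mem (P.B.mul_mem (hx _) (P.e_mem _)) (hy _), fun t t' e e' => ?_⟩
            rw [Prob.e, mul_mask_mul]
            refine Finset.sum_nbij π (fun u hu => ?_) (fun u hu u' hu' h => ?_)
              (fun p hp => ?_) fun u hu => ?_
            · simpa using h1 _ _ (by simpa using hu)
            · exact h2 _ _ ((by simpa using hu : vt u = vt u₀).trans
                (by simpa using hu' : vt u' = vt u₀).symm) h
            · obtain ⟨u, e1, e2⟩ := h3 u₀ p (by simpa using hp)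
              exact ⟨u, by simpa using e1, e2⟩
            · have hu' : vt u = vt u₀ := by simpa using hu
              rw [ex _ u t' hu' e', ey _ t u e hu']
          choose! z hz ez using key
          refine ⟨∑ l ∈ Finset.univ.image vt, z l, P.B.sum_mem hz, fun t t' e e' => ?_⟩
          rw [Matrix.mul_apply, Matrix.sum_apply, ← Finset.sum_fiberwise_of_maps_to
            (fun u hu => Finset.mem_image_of_mem vt hu)]
          exact Finset.sum_congr rfl fun l hl => ez l hl t t' e e'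
      algebraMap_mem' := fun c => by
        refine ⟨fun t' t h => ?_, fun i j => ?_⟩
        · by_cases e : t' = t
          · rw [e]
          · simp [Matrix.algebraMap_matrix_apply, e] at h
        · by_cases e : i = j
          · refine ⟨algebraMap k _ c, P.B.algebraMap_mem c, fun t t' e1 e2 => ?_⟩
            have : π t' = π t ↔ t' = t :=
              ⟨h2 _ _ (e2.trans (e.symm.trans e1.symm)), fun h => by rw [h]⟩
            simp [Matrix.algebraMap_matrix_apply, this]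
          · refine ⟨0, P.B.zero_mem, fun t t' e1 e2 => ?_⟩
            have : t' ≠ t := fun h => e (by rw [← e1, ← e2, h])
            simp [Matrix.algebraMap_matrix_apply, this] }
  idem i₀ := by
    refine ⟨fun t' t h => ?_, fun i j => ?_⟩
    · by_cases e : t' = t
      · rw [e]
      · exact ((mask_ne h).2 (Matrix.one_apply_ne e)).elim
    · by_cases e : i = i₀ ∧ j = i₀
      · refine ⟨1, P.B.one_mem, fun t t' e1 e2 => ?_⟩
        have : π t' = π t ↔ t' = t :=
          ⟨h2 _ _ (e2.trans (e.2.trans (e1.trans e.1).symm)), fun h => by rw [h]⟩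
        rw [mask_pos (s := fun _ p => vt p = i₀) _ (e1.trans e.1)]
        simp [Matrix.one_apply, this]
      · refine ⟨0, P.B.zero_mem, fun t t' e1 e2 => ?_⟩
        by_contra h
        obtain ⟨h4, h5⟩ := mask_ne (s := fun _ p => vt p = i₀) h
        have : t' = t := by
          by_contra h6
          exact h5 (Matrix.one_apply_ne h6)
        exact e ⟨e1.symm.trans h4, e2.symm.trans (this ▸ h4)⟩
  peak _ hb := hb.1

theorem mkLift (P : Prob k F Pt ι Ω) {G : Type} [Group G] {deg : Pt → G} (hg : Graded P deg)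
    (vt : T → I) (pk : T → O) (π : T → Pt) (γ : I → ι × G) (θ : O → Ω × G)
    (hγ : Injective γ) (hθ : Injective θ) (hv : ∀ t, (γ (vt t)).1 = P.vt (π t))
    (hp : ∀ t, θ (pk t) = (P.pk (π t), (γ (vt t)).2 * deg (π t))) (hs : Surjective vt)
    (h2 : ∀ t t', vt t = vt t' → π t = π t' → t = t')
    (h3 : ∀ t p, P.vt p = P.vt (π t) → ∃ t', vt t' = vt t ∧ π t' = p) :
    ∃ J : Prob k F T I O, J.vt = vt ∧ J.pk = pk ∧ Lift J P deg π γ θ := by
  have h1 : ∀ t t', vt t = vt t' → P.vt (π t) = P.vt (π t') := fun t t' h => by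
    rw [← hv, ← hv, h]
  have h4 : ∀ t t', pk t = pk t' ↔ P.pk (π t) = P.pk (π t') ∧
      (γ (vt t)).2 * deg (π t) = (γ (vt t')).2 * deg (π t') := fun t t' => by
    rw [← hθ.eq_iff, hp, hp, Prod.mk.injEq]
  refine ⟨mkJ P vt pk π h1 h2 h3, rfl, rfl, hγ, hθ, hv, hp, hs, h1, h2, h3,
    fun t t' h => ((h4 t t').1 h).1, fun t t' e h => h2 t t' (hγ (Prod.ext ?_ ?_)) e,
    fun _ => Iff.rfl, fun h hh i j => ⟨_, hg h hh ((γ i).2⁻¹ * (γ j).2), fun t t' e e' => ?_⟩⟩
  · rw [hv, hv, e]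
  · have := ((h4 t t').1 h).2
    rw [e] at this
    exact mul_right_cancel this
  · change vt t = i at e
    change vt t' = j at e'
    change (pk t' = pk t → _) ∧ (pk t' ≠ pk t → _)
    have h5 : deg (π t) = (γ i).2⁻¹ * (γ j).2 * deg (π t') ↔
        (γ (vt t')).2 * deg (π t') = (γ (vt t)).2 * deg (π t) := by
      rw [e, e', mul_assoc, eq_inv_mul_iff_mul_eq, eq_comm]
    refine ⟨fun h6 => mask_pos _ (h5.2 ((h4 _ _).1 h6).2), fun h6 => ?_⟩
    by_contra h7
    obtain ⟨h8, h9⟩ := mask_ne h7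
    exact h6 ((h4 _ _).2 ⟨P.peak h hh _ _ h9, h5.1 h8⟩)

variable {J : Prob k F T I O} {P : Prob k F Pt ι Ω} {π : T → Pt}

theorem lift (hc : Cover J P π) {h : Matrix Pt Pt F} (hh : h ∈ P.B) (i j : I) :
    mask (fun t' t => J.vt t = i ∧ J.vt t' = j ∧ J.pk t' = J.pk t) (h.submatrix π π) ∈
      J.H i j := by
  refine ⟨(hc.mem _).2 ⟨fun t' t e => (mask_ne e).1.2.2, fun i' j' => ?_⟩,
    fun t' t e => ⟨(mask_ne e).1.1, (mask_ne e).1.2.1⟩⟩
  by_cases e : i' = i ∧ j' = j
  · obtain ⟨h', hh', e'⟩ := hc.homog h hh i j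
    refine ⟨h', hh', fun t t' e1 e2 => ?_⟩
    have := e' t t' (e1.trans e.1) (e2.trans e.2)
    by_cases e3 : J.pk t' = J.pk t
    · rw [this.1 e3]
      exact mask_pos _ ⟨e1.trans e.1, e2.trans e.2, e3⟩
    · rw [this.2 e3]
      exact mask_neg _ fun e4 => e3 e4.2.2
  · exact ⟨0, P.B.zero_mem, fun t t' e1 e2 => mask_neg _ fun e4 =>
      e ⟨e1.symm.trans e4.1, e2.symm.trans e4.2.1⟩⟩

theorem blocks {B : Subalgebra k (Matrix Pt Pt F)} {vt : T → I} {i j : I}
    {Q : Matrix Pt Pt F → T → T → Prop}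
    (h : ∀ t₀ t₀', vt t₀ = i → vt t₀' = j → ∃ x ∈ B, ∀ t t', vt t = i → vt t' = j → Q x t t') :
    ∃ x ∈ B, ∀ t t', vt t = i → vt t' = j → Q x t t' := by
  by_cases e : ∃ t₀ t₀', vt t₀ = i ∧ vt t₀' = j
  · obtain ⟨t₀, t₀', e1, e2⟩ := e
    exact h t₀ t₀' e1 e2
  · exact ⟨0, B.zero_mem, fun t t' e1 e2 => (e ⟨t, t', e1, e2⟩).elim⟩

theorem comp (hc : Cover J P π) {T' I' O' : Type} [Fintype T'] [DecidableEq T']
    {J' : Prob k F T' I' O'} {π' : T' → T} (hd : Cover J' J π') : Cover J' P (π ∘ π') where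
  vt_eq t t' h := hc.vt_eq _ _ (hd.vt_eq _ _ h)
  inj t t' h e := hd.inj _ _ h (hc.inj _ _ (hd.vt_eq _ _ h) e)
  full t p h := by
    obtain ⟨u, e1, e2⟩ := hc.full (π' t) p h
    obtain ⟨t', e3, e4⟩ := hd.full t u e1
    exact ⟨t', e3, by rw [comp_apply, e4, e2]⟩
  pk_eq t t' h := hc.pk_eq _ _ (hd.pk_eq _ _ h)
  uniq t t' e h := hd.uniq _ _ (hc.uniq _ _ e (hd.pk_eq _ _ h)) h
  mem b := by
    rw [hd.mem]
    refine and_congr_right fun hb => forall₂_congr fun i j => ⟨?_, ?_⟩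
    · rintro ⟨x, hx, ex⟩
      refine blocks fun t₀ t₀' e1 e2 => ?_
      obtain ⟨y, hy, ey⟩ := ((hc.mem x).1 hx).2 (J.vt (π' t₀)) (J.vt (π' t₀'))
      exact ⟨y, hy, fun t t' e3 e4 => (ex t t' e3 e4).trans
        (ey _ _ (hd.vt_eq _ _ (e3.trans e1.symm)) (hd.vt_eq _ _ (e4.trans e2.symm)))⟩
    · rintro ⟨x, hx, ex⟩
      refine blocks fun t₀ t₀' e1 e2 => ⟨_, (lift hc hx (J.vt (π' t₀)) (J.vt (π' t₀'))).1,
        fun t t' e3 e4 => ?_⟩
      by_cases e5 : J.pk (π' t') = J.pk (π' t)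
      · exact (ex t t' e3 e4).trans (mask_pos (x.submatrix π π)
          ⟨hd.vt_eq _ _ (e3.trans e1.symm), hd.vt_eq _ _ (e4.trans e2.symm), e5⟩).symm
      · rw [mask_neg _ fun e6 => e5 e6.2.2]
        by_contra e6
        exact e5 (hd.pk_eq _ _ (hb _ _ e6))
  homog h hh i j := by
    refine blocks fun t₀ t₀' e1 e2 => ?_
    obtain ⟨c, hc', ec⟩ := hd.homog _ (lift hc hh (J.vt (π' t₀)) (J.vt (π' t₀'))).1 i j
    obtain ⟨y, hy, ey⟩ := ((hc.mem c).1 hc').2 (J.vt (π' t₀)) (J.vt (π' t₀'))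
    refine ⟨y, hy, fun t t' e3 e4 => ?_⟩
    have e5 := hd.vt_eq _ _ (e3.trans e1.symm)
    have e6 := hd.vt_eq _ _ (e4.trans e2.symm)
    have e7 := (ey _ _ e5 e6).symm
    exact ⟨fun e8 => e7.trans (((ec t t' e3 e4).1 e8).trans
      (mask_pos (h.submatrix π π) ⟨e5, e6, hd.pk_eq _ _ e8⟩)),
      fun e8 => e7.trans ((ec t t' e3 e4).2 e8)⟩

theorem wp (hc : Cover J P π) [Fintype I] [Fintype O] (hs : Surjective J.vt) (hy : Hyp P.B) :
    J.WP := by
  have h1 : ∀ b : Matrix Pt Pt F, (1 : Matrix Pt Pt F).submatrix π id * b = b.submatrix π id :=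
    fun b => by ext t p; simp [Matrix.mul_apply, Matrix.one_apply]
  have h2 : ∀ b : Matrix Pt Pt F,
      b.submatrix π id * (1 : Matrix Pt Pt F).submatrix id π = b.submatrix π π :=
    fun b => by ext t p; simp [Matrix.mul_apply, Matrix.one_apply]
  refine hy F LinearMap.id rfl T I O J.vt J.pk hs ((1 : Matrix Pt Pt F).submatrix id π)
    ((1 : Matrix Pt Pt F).submatrix π id) (fun t t' e => ?_) J.H fun i j b hb => ?_
  · have : π t = π t' ↔ t = t' := ⟨hc.inj _ _ e, fun h => by rw [h]⟩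
    rw [h2]
    simp [Matrix.one_apply, this]
  · rw [h1, h2]
    exact lift hc hb i j

theorem ar (hc : Cover J P π) (t t' : T) (e : J.pk t = J.pk t') :
    J.Ar t t' ↔ P.Ar (π t) (π t') := by
  constructor
  · rintro ⟨h1, b, hb, h2⟩
    obtain ⟨x, hx, ex⟩ := ((hc.mem b).1 hb).2 (J.vt t) (J.vt t')
    exact ⟨fun h => h1 (hc.uniq _ _ h e), x, hx, ex t t' rfl rfl ▸ h2⟩
  · rintro ⟨h1, b, hb, h2⟩
    refine ⟨fun h => h1 (by rw [h]), _, (lift hc hb (J.vt t) (J.vt t')).1, ?_⟩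
    rwa [mask_pos (b.submatrix π π) ⟨rfl, rfl, e.symm⟩]

theorem subok (S : T → Prop) [DecidablePred S]
    (h : mask (fun _ t => S t) (1 : Matrix T T F) ∈ J.B) : SubOk J S := by
  intro b hb b' hb'
  refine ⟨_, J.B.mul_mem (J.B.mul_mem hb h) hb', ?_⟩
  ext q p
  rw [Matrix.submatrix_apply, mul_mask_mul, Matrix.mul_apply]
  exact (Finset.sum_subtype _ (fun x => by simp) fun r => b q.1 r * b' r p.1).symm

theorem sub (hc : Cover J P π) (S : Pt → Prop) [DecidablePred S] (h : SubOk P S)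
    (hm : mask (fun _ p => S p) (1 : Matrix Pt Pt F) ∈ P.B) :
    ∃ h' : SubOk J (fun t => S (π t)), Cover (J.sub (fun t => S (π t)) h') (P.sub S h)
      fun t => ⟨π t.1, t.2⟩ := by
  have h0 : mask (fun _ t => S (π t)) (1 : Matrix T T F) ∈ J.B := by
    refine (hc.mem _).2 ⟨fun t' t e => ?_, fun i j => ?_⟩
    · by_cases e' : t' = t
      · rw [e']
      · exact ((mask_ne e).2 (Matrix.one_apply_ne e')).elim
    · by_cases e : i = j
      · refine ⟨_, hm, fun t t' e1 e2 => ?_⟩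
        have : π t' = π t ↔ t' = t :=
          ⟨hc.inj _ _ (e2.trans (e.symm.trans e1.symm)), fun h => by rw [h]⟩
        simp [mask_apply, Matrix.one_apply, this]
      · refine ⟨0, P.B.zero_mem, fun t t' e1 e2 => ?_⟩
        have : t' ≠ t := fun h => e (by rw [← e1, ← e2, h])
        simp [mask_apply, this]
  refine ⟨subok _ h0, fun t t' e => hc.vt_eq _ _ e,
    fun t t' e e' => Subtype.ext (hc.inj _ _ e (congrArg Subtype.val e')), fun t p e => ?_,
    fun t t' e => hc.pk_eq _ _ e,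
    fun t t' e e' => Subtype.ext (hc.uniq _ _ (congrArg Subtype.val e) e'),
    fun b => ⟨fun hb => ⟨(J.sub _ _).peak b hb, fun i j => ?_⟩, fun ⟨b1, b2⟩ => ?_⟩, ?_⟩
  · obtain ⟨t', e1, e2⟩ := hc.full t.1 p.1 e
    exact ⟨⟨t', e2 ▸ p.2⟩, e1, Subtype.ext e2⟩
  · obtain ⟨c, hc', rfl⟩ := hb
    obtain ⟨x, hx, ex⟩ := ((hc.mem c).1 hc').2 i j
    exact ⟨_, ⟨x, hx, rfl⟩, fun t t' e e' => ex t.1 t'.1 e e'⟩
  · refine ⟨Matrix.of fun t' t => if e : S (π t') ∧ S (π t) then b ⟨t', e.1⟩ ⟨t, e.2⟩ else 0,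
      (hc.mem _).2 ⟨fun t' t e => ?_, fun i j => ?_⟩, ?_⟩
    · by_cases e' : S (π t') ∧ S (π t)
      · rw [Matrix.of_apply, dif_pos e'] at e
        exact b1 _ _ e
      · exact (e (by rw [Matrix.of_apply, dif_neg e'])).elim
    · obtain ⟨_, ⟨x, hx, rfl⟩, ex⟩ := b2 i j
      refine ⟨_, P.B.mul_mem (P.B.mul_mem hm hx) hm, fun t t' e1 e2 => ?_⟩
      rw [mul_mask, mask_mul, Matrix.of_apply]
      by_cases e : S (π t') ∧ S (π t)
      · rw [dif_pos e, if_pos e.2, if_pos e.1]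
        exact ex ⟨t, e.2⟩ ⟨t', e.1⟩ e1 e2
      · rw [dif_neg e]
        split_ifs with e3 e4
        · exact (e ⟨e4, e3⟩).elim
        · rfl
        · rfl
    · ext t' t
      exact dif_pos ⟨t'.2, t.2⟩
  · rintro _ ⟨x, hx, rfl⟩ i j
    obtain ⟨y, hy, ey⟩ := hc.homog x hx i j
    exact ⟨_, ⟨y, hy, rfl⟩, fun t t' e e' => ey t.1 t'.1 e e'⟩

end PieceA

/-- Existence of pieces. -/
theorem piece : SPiece := by
  intro k F _ _ _ Pt ι Ω _ _ P G _ deg hg
  classical
  refine ⟨fun Γ Θ hΓ => ?_, fun P₀ T I O _ _ J₀ π γ θ e1 e2 h =>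
    PieceA.mkLift P hg J₀.vt J₀.pk π γ θ h.γinj h.θinj (e1 ▸ h.vt) (e2 ▸ h.pk) h.surj h.cov.inj
      (e1 ▸ h.cov.full)⟩
  let T := {x : Γ × Pt // x.1.1.1 = P.vt x.2}
  let f : T → Ω × G := fun t => (P.pk t.1.2, t.1.1.1.2 * deg t.1.2)
  obtain ⟨J, -, -, hJ⟩ := PieceA.mkLift (T := T) (I := Γ) (O := ↥(Θ ∪ Finset.univ.image f)) P hg
    (fun t => t.1.1)
    (fun t => ⟨f t, Finset.mem_union_right _ (Finset.mem_image_of_mem f (Finset.mem_univ t))⟩)
    (fun t => t.1.2) Subtype.val Subtype.val Subtype.val_injective Subtype.val_injective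
    (fun t => t.2) (fun _ => rfl)
    (fun x => by
      obtain ⟨p, hp⟩ := hΓ x.1 x.2
      exact ⟨⟨(x, p), hp.symm⟩, rfl⟩)
    (fun t t' e e' => Subtype.ext (Prod.ext e e'))
    fun t p e => ⟨⟨(t.1.1, p), t.2.trans e.symm⟩, rfl, rfl⟩
  refine ⟨T, _, _, inferInstance, inferInstance, inferInstance, inferInstance, J, _, _, _, hJ,
    Subtype.range_coe, fun x hx => ⟨⟨x, Finset.mem_union_left _ hx⟩, rfl⟩⟩

/-- Composition of covers, and weak positivity of covers. -/
theorem cov1 : SCov1 := fun _ _ _ _ _ _ _ _ _ _ _ _ _ _ _ _ _ _ hc =>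
  ⟨fun _ _ _ _ _ _ _ hd => PieceA.comp hc hd, fun hs hy => PieceA.wp hc hs hy, PieceA.ar hc,
    fun S _ h hm => PieceA.sub hc S h hm.1⟩

end Pool.Agent.MP_bd94e8_al.H89
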